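import Pool.Agent.Helper27_Sob.Statements

/-!
Module A5 of the blueprint for MP_60fe1d_an: geometry of the flags of the dyadic complex.
-/

set_option autoImplicit false

open Set Filter Topology Metric MeasureTheory
open scoped ENNReal NNReal

namespace Pool.Agent.Helper23Sob

open Pool.Agent.Helper27Sob

theorem len_pos (F : Cell) : 0 < F.len := by
  unfold Cell.len ell; positivity

theorem center_mem_inner (F : Cell) : F.center ∈ F.inner := by
  intro j
  have := len_pos F
  by_cases h : Odd (F.q j)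
  · simp only [if_pos h, sub_self, abs_zero]; linarith
  · simp only [if_neg h]

theorem center_mem_carrier (F : Cell) : F.center ∈ F.carrier := by
  intro j
  have := len_pos F
  by_cases h : Odd (F.q j)
  · simp only [if_pos h, sub_self, abs_zero]; linarith
  · simp only [if_neg h, sub_self, abs_zero]; exact le_rfl

theorem mem_carrier_iff (F : Cell) (x : E) : x ∈ F.carrier ↔
    ∀ j, |x j - F.center j| ≤ if Odd (F.q j) then F.len / 2 else 0 := Iff.rfl

theorem carrier_eq_Icc (F : Cell) : F.carrier =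
    Icc (fun j => F.center j - if Odd (F.q j) then F.len / 2 else 0)
      (fun j => F.center j + if Odd (F.q j) then F.len / 2 else 0) := by
  ext x
  simp only [mem_carrier_iff, mem_Icc, Pi.le_def, abs_le]
  constructor
  · intro h
    exact ⟨fun j => by linarith [(h j).1], fun j => by linarith [(h j).2]⟩
  · intro h j
    exact ⟨by linarith [h.1 j], by linarith [h.2 j]⟩

theorem convex_carrier (F : Cell) : Convex ℝ F.carrier := by
  rw [carrier_eq_Icc]; exact convex_Icc _ _

theorem isCompact_carrier (F : Cell) : IsCompact F.carrier := by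
  rw [carrier_eq_Icc]; exact isCompact_Icc

theorem center_fixed (F : Cell) {x : E} (hx : x ∈ F.carrier) {j : Fin 5} (h : ¬ Odd (F.q j)) :
    x j = F.center j := by
  have := hx j
  rw [if_neg h] at this
  have := abs_nonpos_iff.1 this
  linarith

/-- If a free coordinate of a cell `G` is fixed in `T ⊇ G`, contradiction: free coordinates are
monotone. -/
theorem free_mono {F G : Cell} (h : F.carrier ⊆ G.carrier) {j : Fin 5} (hj : Odd (F.q j)) :
    Odd (G.q j) := by
  by_contra hG
  have h1 : F.center ∈ G.carrier := h (center_mem_carrier F)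
  have hl := len_pos F
  have h2 : (fun i => F.center i + if i = j then F.len / 2 else 0) ∈ F.carrier := by
    intro i
    by_cases hij : i = j
    · subst hij
      simp only [if_true, if_pos hj, add_sub_cancel_left]
      rw [abs_of_pos (by linarith)]
    · simp only [if_neg hij, add_zero, sub_self, abs_zero]
      split_ifs <;> linarith
  have e1 := center_fixed G h1 hG
  have e2 := center_fixed G (h h2) hG
  simp only [if_true] at e2
  linarith

section Flag

variable {C : Set E} {F : Fin 6 → Cell}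

theorem IsFlag.dim_eq (hF : IsFlag C F) (k : Fin 6) : (F k).dim = k := (hF.1 k).2

theorem IsFlag.injective (hF : IsFlag C F) : Function.Injective F := by
  intro k l hkl
  have h1 := (hF.1 k).2
  have h2 := (hF.1 l).2
  rw [hkl, h2] at h1
  exact Fin.ext h1.symm

theorem flag_free_mono (hF : IsFlag C F) {k l : Fin 6} (h : k ≤ l) {j : Fin 5}
    (hj : Odd ((F k).q j)) : Odd ((F l).q j) := free_mono (hF.2 k l h) hj

/-- The direction which is free in `F (k+1)` but not in `F k`. -/
theorem exists_dir (hF : IsFlag C F) (k : Fin 5) :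
    ∃ j, Odd ((F k.succ).q j) ∧ ¬ Odd ((F k.castSucc).q j) := by
  by_contra hcon
  push Not at hcon
  have h1 := (hF.1 k.succ).2
  have h2 := (hF.1 k.castSucc).2
  have : (F k.succ).dim ≤ (F k.castSucc).dim := by
    unfold Cell.dim
    apply Finset.card_le_card
    intro j hj
    simp only [Finset.mem_filter, Finset.mem_univ, true_and] at hj ⊢
    exact hcon j hj
  rw [h1, h2] at this
  simp at this

theorem dir_unique (hF : IsFlag C F) (k : Fin 5) {j j' : Fin 5}
    (hj : Odd ((F k.succ).q j)) (hj2 : ¬ Odd ((F k.castSucc).q j))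
    (hj' : Odd ((F k.succ).q j')) (hj2' : ¬ Odd ((F k.castSucc).q j')) : j = j' := by
  by_contra hne
  have h1 := (hF.1 k.succ).2
  have h2 := (hF.1 k.castSucc).2
  unfold Cell.dim at h1 h2
  have hsub : insert j (insert j' (Finset.univ.filter fun i => Odd ((F k.castSucc).q i))) ⊆
      Finset.univ.filter fun i => Odd ((F k.succ).q i) := by
    intro i hi
    simp only [Finset.mem_insert, Finset.mem_filter, Finset.mem_univ, true_and] at hi ⊢
    rcases hi with rfl | rfl | hi
    · exact hj
    · exact hj'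
    · exact flag_free_mono hF (Fin.castSucc_lt_succ).le hi
  have := Finset.card_le_card hsub
  rw [Finset.card_insert_of_notMem, Finset.card_insert_of_notMem, h1, h2] at this
  · simp at this
  · simpa using hj2'
  · simp only [Finset.mem_insert, Finset.mem_filter, Finset.mem_univ, true_and, not_or]
    exact ⟨hne, hj2⟩

/-- The direction which is free in `F (k+1)` but not in `F k`. -/
noncomputable def dirOf (hF : IsFlag C F) (k : Fin 5) : Fin 5 := (exists_dir hF k).choose

theorem dirOf_free (hF : IsFlag C F) (k : Fin 5) : Odd ((F k.succ).q (dirOf hF k)) :=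
  (exists_dir hF k).choose_spec.1

theorem dirOf_fixed (hF : IsFlag C F) (k : Fin 5) : ¬ Odd ((F k.castSucc).q (dirOf hF k)) :=
  (exists_dir hF k).choose_spec.2

theorem dirOf_fixed_of_le (hF : IsFlag C F) {k : Fin 5} {l : Fin 6} (h : l ≤ k.castSucc) :
    ¬ Odd ((F l).q (dirOf hF k)) := fun h' => dirOf_fixed hF k (flag_free_mono hF h h')

theorem dirOf_injective (hF : IsFlag C F) : Function.Injective (dirOf hF) := by
  intro k l hkl
  rcases lt_trichotomy k l with h | h | h
  · exfalso
    have h1 := dirOf_free hF k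
    rw [hkl] at h1
    refine dirOf_fixed_of_le hF (k := l) (l := k.succ) ?_ h1
    exact Fin.succ_le_castSucc_iff.2 h
  · exact h
  · exfalso
    have h1 := dirOf_free hF l
    rw [← hkl] at h1
    refine dirOf_fixed_of_le hF (k := k) (l := l.succ) ?_ h1
    exact Fin.succ_le_castSucc_iff.2 h

theorem center_eq_of_le (hF : IsFlag C F) {k : Fin 5} {l : Fin 6} (h : l ≤ k.castSucc) :
    (F l).center (dirOf hF k) = (F k.castSucc).center (dirOf hF k) :=
  center_fixed _ (hF.2 _ _ h (center_mem_carrier _)) (dirOf_fixed hF k)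

/-- The scale of a smaller cell of the flag. -/
theorem scale_of_le (h1 : A1Statement) (hC : IsClosed C) (hF : IsFlag C F) {k l : Fin 6}
    (h : k ≤ l) : (F k).i = (F l).i ∨ (F k).i = (F l).i + 1 :=
  ((h1 C hC).2.2.1 (F l) (F k) (F k).center (hF.1 l).1 (hF.1 k).1
    (hF.2 k l h (center_mem_carrier _)) (center_mem_inner _)).2.2

theorem len_le_of_le (h1 : A1Statement) (hC : IsClosed C) (hF : IsFlag C F) {k l : Fin 6}
    (h : k ≤ l) : (F k).len ≤ (F l).len ∧ (F l).len ≤ 2 * (F k).len := by
  unfold Cell.len ell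
  rcases scale_of_le h1 hC hF h with h' | h'
  · rw [h']
    have : (0 : ℝ) < (1 / 2) ^ (F l).i := by positivity
    constructor <;> linarith
  · rw [h', pow_succ]
    have : (0 : ℝ) < (1 / 2) ^ (F l).i := by positivity
    constructor <;> linarith

/-- The next smaller cell lies on the boundary. -/
theorem center_dirOf (h1 : A1Statement) (hC : IsClosed C) (hF : IsFlag C F) (k : Fin 5) :
    |(F k.castSucc).center (dirOf hF k) - (F k.succ).center (dirOf hF k)| =
      (F k.succ).len / 2 := by
  have hne : F k.castSucc ≠ F k.succ := fun h =>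
    (Fin.castSucc_lt_succ (i := k)).ne (IsFlag.injective hF h)
  have hle : k.castSucc ≤ k.succ := (Fin.castSucc_lt_succ (i := k)).le
  have hcar := hF.2 _ _ hle (center_mem_carrier (F k.castSucc))
  have hnot : (F k.castSucc).center ∉ (F k.succ).inner := fun h =>
    hne ((h1 C hC).2.1 _ _ _ (hF.1 _).1 (hF.1 _).1 (center_mem_inner _) h)
  have hex : ∃ i, Odd ((F k.succ).q i) ∧
      (F k.succ).len / 2 ≤ |(F k.castSucc).center i - (F k.succ).center i| := by
    by_contra hcon
    push Not at hcon
    apply hnot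
    intro i
    split_ifs with hi
    · exact hcon i hi
    · exact center_fixed _ hcar hi
  obtain ⟨i, hi, hle'⟩ := hex
  have hfix : ¬ Odd ((F k.castSucc).q i) := by
    intro hodd
    have hl := len_pos (F k.castSucc)
    have hmem : ∀ s : ℝ, |s| ≤ (F k.castSucc).len / 2 →
        (fun m => (F k.castSucc).center m + if m = i then s else 0) ∈
          (F k.castSucc).carrier := by
      intro s hs m
      by_cases hm : m = i
      · subst hm
        simpa only [if_true, if_pos hodd, add_sub_cancel_left] using hs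
      · simp only [if_neg hm, add_zero, sub_self, abs_zero]
        split_ifs <;> linarith
    have ha := hF.2 _ _ hle (hmem ((F k.castSucc).len / 2) (by rw [abs_of_pos (by linarith)]))
    have hb := hF.2 _ _ hle (hmem (-((F k.castSucc).len / 2))
      (by rw [abs_neg, abs_of_pos (by linarith)]))
    have ha' := ha i
    have hb' := hb i
    simp only [if_true, if_pos hi] at ha' hb'
    rw [abs_le] at ha' hb'
    rcases le_abs.1 hle' with h | h <;> linarith
  have hij : i = dirOf hF k := dir_unique hF k hi hfix (dirOf_free hF k) (dirOf_fixed hF k)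
  subst hij
  refine le_antisymm ?_ hle'
  have := hcar (dirOf hF k)
  rwa [if_pos (dirOf_free hF k)] at this

/-- The matrix of the edges of a flag. -/
noncomputable def edgeMat (F : Fin 6 → Cell) : Matrix (Fin 5) (Fin 5) ℝ :=
  fun i k => (F k.castSucc).center i - (F k.succ).center i

theorem abs_det_edgeMat (h1 : A1Statement) (hC : IsClosed C) (hF : IsFlag C F) :
    |(edgeMat F).det| = ∏ k : Fin 5, (F k.succ).len / 2 := by
  let σ : Equiv.Perm (Fin 5) := Equiv.ofBijective (dirOf hF)
    (Finite.injective_iff_bijective.1 (dirOf_injective hF))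
  have htri : ((edgeMat F).submatrix σ id).det =
      ∏ k, ((edgeMat F).submatrix σ id) k k := by
    apply Matrix.det_of_isUpperTriangular
    intro m k hmk
    simp only [id] at hmk
    change (F k.castSucc).center (dirOf hF m) - (F k.succ).center (dirOf hF m) = 0
    rw [center_eq_of_le hF (k := m) (l := k.castSucc) (Fin.castSucc_le_castSucc_iff.2 hmk.le),
      center_eq_of_le hF (k := m) (l := k.succ) (Fin.succ_le_castSucc_iff.2 hmk), sub_self]
  have hperm := Matrix.det_permute σ (edgeMat F)
  have habs : |((Equiv.Perm.sign σ : ℤ) : ℝ)| = 1 := by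
    rcases Int.units_eq_one_or (Equiv.Perm.sign σ) with h | h <;> simp [h]
  have : |(edgeMat F).det| = |((edgeMat F).submatrix σ id).det| := by
    rw [hperm, abs_mul, habs, one_mul]
  rw [this, htri, Finset.abs_prod]
  refine Finset.prod_congr rfl fun k _ => ?_
  exact center_dirOf h1 hC hF k

theorem det_edgeMat_ne (h1 : A1Statement) (hC : IsClosed C) (hF : IsFlag C F) :
    (edgeMat F).det ≠ 0 := by
  intro h
  have := abs_det_edgeMat h1 hC hF
  rw [h, abs_zero] at this
  have hpos : 0 < ∏ k : Fin 5, (F k.succ).len / 2 :=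
    Finset.prod_pos fun k _ => by have := len_pos (F k.succ); positivity
  linarith

/-- The parameter domain of the open simplex. -/
def param : Set E := {W | 0 < W 0 ∧ W 0 < W 1 ∧ W 1 < W 2 ∧ W 2 < W 3 ∧ W 3 < W 4 ∧ W 4 < 1}

theorem isOpen_param : IsOpen param := by
  unfold param
  simp only [Set.ofPred_and]
  refine IsOpen.inter ?_ (IsOpen.inter ?_ (IsOpen.inter ?_ (IsOpen.inter ?_
    (IsOpen.inter ?_ ?_)))) <;> exact isOpen_lt (by fun_prop) (by fun_prop)

theorem comb_eq (F : Fin 6 → Cell) (w : Fin 6 → ℝ) (hw : ∑ k, w k = 1) :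
    comb F w = (F 5).center + Matrix.toLin' (edgeMat F)
      ![w 0, w 0 + w 1, w 0 + w 1 + w 2, w 0 + w 1 + w 2 + w 3,
        w 0 + w 1 + w 2 + w 3 + w 4] := by
  have h5 : w 5 = 1 - (w 0 + w 1 + w 2 + w 3 + w 4) := by
    rw [Fin.sum_univ_six] at hw; linarith
  funext i
  simp only [comb, Finset.sum_apply, Pi.smul_apply, smul_eq_mul, Pi.add_apply,
    Matrix.toLin'_apply, Matrix.mulVec, dotProduct, edgeMat, Fin.sum_univ_six,
    Fin.sum_univ_five, h5]
  simp
  ring

theorem openSimplex_eq (F : Fin 6 → Cell) :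
    openSimplex F = (fun v => (F 5).center + v) '' (Matrix.toLin' (edgeMat F) '' param) := by
  ext x
  constructor
  · rintro ⟨w, hw, hs, rfl⟩
    refine ⟨_, ⟨![w 0, w 0 + w 1, w 0 + w 1 + w 2, w 0 + w 1 + w 2 + w 3,
        w 0 + w 1 + w 2 + w 3 + w 4], ?_, rfl⟩, (comb_eq F w hs).symm⟩
    have h5 : w 5 = 1 - (w 0 + w 1 + w 2 + w 3 + w 4) := by
      rw [Fin.sum_univ_six] at hs; linarith
    have := hw 0; have := hw 1; have := hw 2; have := hw 3; have := hw 4; have := hw 5
    refine ⟨?_, ?_, ?_, ?_, ?_, ?_⟩ <;> simp <;> linarith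
  · rintro ⟨_, ⟨W, ⟨a0, a1, a2, a3, a4, a5⟩, rfl⟩, rfl⟩
    have hsum : ∑ k, (![W 0, W 1 - W 0, W 2 - W 1, W 3 - W 2, W 4 - W 3, 1 - W 4] :
        Fin 6 → ℝ) k = 1 := by
      rw [Fin.sum_univ_six]; simp
    refine ⟨![W 0, W 1 - W 0, W 2 - W 1, W 3 - W 2, W 4 - W 3, 1 - W 4], ?_, hsum, ?_⟩
    · intro k
      fin_cases k <;> simp <;> linarith
    · rw [comb_eq F _ hsum]
      have : (![W 0, W 1, W 2, W 3, W 4] : E) = W := by
        funext k; fin_cases k <;> rfl
      simp [this]

theorem isOpen_openSimplex (h1 : A1Statement) (hC : IsClosed C) (hF : IsFlag C F) :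
    IsOpen (openSimplex F) := by
  rw [openSimplex_eq]
  have hdet : LinearMap.det (Matrix.toLin' (edgeMat F)) ≠ 0 := by
    rw [LinearMap.det_toLin']; exact det_edgeMat_ne h1 hC hF
  have hsurj : Function.Surjective (Matrix.toLin' (edgeMat F)) :=
    ((Matrix.toLin' (edgeMat F)).equivOfDetNeZero hdet).surjective
  have h2 := LinearMap.isOpenMap_of_finiteDimensional (Matrix.toLin' (edgeMat F)) hsurj
  exact (isOpenMap_add_left _) _ (h2 _ isOpen_param)

theorem openSimplex_subset (hF : IsFlag C F) : openSimplex F ⊆ (F 5).carrier := by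
  rintro x ⟨w, hw, hs, rfl⟩
  exact (convex_carrier (F 5)).sum_mem (fun k _ => (hw k).le) hs
    fun k _ => hF.2 k 5 (Fin.le_last k) (center_mem_carrier _)

theorem volume_box : volume (Set.pi univ fun k : Fin 5 => Ioo ((k : ℝ) / 5) ((k + 1 : ℝ) / 5)) =
    ENNReal.ofReal (1 / 3125) := by
  rw [Real.volume_pi_Ioo]
  have : ∀ k : Fin 5, ENNReal.ofReal (((k : ℝ) + 1) / 5 - (k : ℝ) / 5) = ENNReal.ofReal (1 / 5) := by
    intro k; congr 1; ring
  simp only [this]
  rw [Finset.prod_const, Finset.card_univ, Fintype.card_fin, ← ENNReal.ofReal_pow (by norm_num)]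
  norm_num

theorem box_subset : (Set.pi univ fun k : Fin 5 => Ioo ((k : ℝ) / 5) ((k + 1 : ℝ) / 5)) ⊆
    param := by
  intro W hW
  have h := fun k => hW k (mem_univ k)
  have h0 := h 0; have h1 := h 1; have h2 := h 2; have h3 := h 3; have h4 := h 4
  simp only [mem_Ioo] at h0 h1 h2 h3 h4
  norm_num at h0 h1 h2 h3 h4
  refine ⟨?_, ?_, ?_, ?_, ?_, ?_⟩ <;> linarith [h0.1, h0.2, h1.1, h1.2, h2.1, h2.2, h3.1, h3.2, h4.1, h4.2]

theorem volume_thick (G : Cell) : volume G.thick = ENNReal.ofReal (G.len ^ 5) := by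
  have hl := len_pos G
  unfold Cell.thick
  rw [Real.volume_pi_closedBall _ (by positivity)]
  simp only [Fintype.card_fin]
  congr 2
  ring

theorem volume_le (h1 : A1Statement) (hC : IsClosed C) (hF : IsFlag C F) :
    volume (F 2).thick ≤ 2 ^ 20 * volume (openSimplex F) := by
  rw [openSimplex_eq, volume_thick]
  have hinj : volume ((fun v => (F 5).center + v) '' (Matrix.toLin' (edgeMat F) '' param)) =
      volume (Matrix.toLin' (edgeMat F) '' param) := by
    rw [image_add_left, measure_preimage_add]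
  rw [hinj, Measure.addHaar_image_linearMap, LinearMap.det_toLin', abs_det_edgeMat h1 hC hF]
  have hb : ENNReal.ofReal (1 / 3125) ≤ volume param := by
    rw [← volume_box]; exact measure_mono box_subset
  have hl2 := len_pos (F 2)
  have hprod : (F 2).len ^ 5 / 64 ≤ ∏ k : Fin 5, (F k.succ).len / 2 := by
    rw [Fin.prod_univ_five]
    have e0 : ((0 : Fin 5).succ : Fin 6) = 1 := rfl
    have e1 : ((1 : Fin 5).succ : Fin 6) = 2 := rfl
    have e2 : ((2 : Fin 5).succ : Fin 6) = 3 := rfl
    have e3 : ((3 : Fin 5).succ : Fin 6) = 4 := rfl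
    have e4 : ((4 : Fin 5).succ : Fin 6) = 5 := rfl
    rw [e0, e1, e2, e3, e4]
    have b1 := (len_le_of_le h1 hC hF (k := 1) (l := 2) (by decide)).2
    have b3 := (len_le_of_le h1 hC hF (k := 2) (l := 3) (by decide)).1
    have b4 := (len_le_of_le h1 hC hF (k := 2) (l := 4) (by decide)).1
    have b5 := (len_le_of_le h1 hC hF (k := 2) (l := 5) (by decide)).1
    have p1 := len_pos (F 1); have p3 := len_pos (F 3); have p4 := len_pos (F 4)
    have p5 := len_pos (F 5)
    have c1 : (F 2).len / 4 ≤ (F 1).len / 2 := by linarith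
    calc (F 2).len ^ 5 / 64 = ((F 2).len / 4) * ((F 2).len / 2) * ((F 2).len / 2) *
          ((F 2).len / 2) * ((F 2).len / 2) := by ring
      _ ≤ (F 1).len / 2 * ((F 2).len / 2) * ((F 3).len / 2) * ((F 4).len / 2) *
          ((F 5).len / 2) :=
        mul_le_mul (mul_le_mul (mul_le_mul (mul_le_mul_of_nonneg_right c1 (by positivity))
          (by linarith) (by positivity) (by positivity)) (by linarith) (by positivity)
          (by positivity)) (by linarith) (by positivity) (by positivity)
  calc ENNReal.ofReal ((F 2).len ^ 5)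
      ≤ ENNReal.ofReal (2 ^ 20 * ((F 2).len ^ 5 / 64 * (1 / 3125))) := by
        apply ENNReal.ofReal_le_ofReal
        have : 0 < (F 2).len ^ 5 := by positivity
        nlinarith
    _ = 2 ^ 20 * (ENNReal.ofReal ((F 2).len ^ 5 / 64) * ENNReal.ofReal (1 / 3125)) := by
        rw [ENNReal.ofReal_mul (by norm_num), ENNReal.ofReal_mul (by positivity)]
        congr 1
        rw [ENNReal.ofReal_pow (by norm_num)]
        norm_num
    _ ≤ 2 ^ 20 * (ENNReal.ofReal (∏ k : Fin 5, (F k.succ).len / 2) * volume param) := by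
        gcongr

theorem wt_spec {x : E} (hx : x ∈ openSimplex F) :
    (∀ k, 0 < wt F x k) ∧ ∑ k, wt F x k = 1 ∧ comb F (wt F x) = x := by
  have h : ∃ w : Fin 6 → ℝ, (∀ k, 0 < w k) ∧ ∑ k, w k = 1 ∧ comb F w = x := hx
  unfold wt
  rw [dif_pos h]
  exact h.choose_spec

/-- The barycentric coordinates of a point of the open simplex as a finitely supported
function. -/
noncomputable def wtF (F : Fin 6 → Cell) (w : Fin 6 → ℝ) : Cell →₀ ℝ :=
  ∑ k, Finsupp.single (F k) (w k)

theorem wtF_sum (F : Fin 6 → Cell) (w : Fin 6 → ℝ) {N : Type*} [AddCommMonoid N]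
    (g : Cell → ℝ → N) (h0 : ∀ c, g c 0 = 0) (ha : ∀ c a b, g c (a + b) = g c a + g c b) :
    (wtF F w).sum g = ∑ k, g (F k) (w k) := by
  unfold wtF
  rw [← Finsupp.sum_finsetSum_index h0 ha]
  exact Finset.sum_congr rfl fun k _ => Finsupp.sum_single_index (h0 _)

theorem wtF_apply (hF : IsFlag C F) (w : Fin 6 → ℝ) (k : Fin 6) : wtF F w (F k) = w k := by
  classical
  unfold wtF
  rw [Finsupp.finsetSum_apply, Finset.sum_eq_single k]
  · simp
  · intro l _ hl
    rw [Finsupp.single_apply, if_neg]
    exact fun h => hl (IsFlag.injective hF h)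
  · simp

theorem wtF_apply_of_notMem (w : Fin 6 → ℝ) {G : Cell} (hG : ∀ k, F k ≠ G) :
    wtF F w G = 0 := by
  classical
  unfold wtF
  rw [Finsupp.finsetSum_apply]
  refine Finset.sum_eq_zero fun k _ => ?_
  rw [Finsupp.single_apply, if_neg (hG k)]

theorem mem_support_wtF (hF : IsFlag C F) {w : Fin 6 → ℝ} (hw : ∀ k, 0 < w k) (G : Cell) :
    G ∈ (wtF F w).support ↔ ∃ k, F k = G := by
  rw [Finsupp.mem_support_iff]
  constructor
  · intro h
    by_contra hcon
    push Not at hcon
    exact h (wtF_apply_of_notMem w hcon)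
  · rintro ⟨k, rfl⟩
    rw [wtF_apply hF]
    exact (hw k).ne'

theorem isCh_range (hF : IsFlag C F) {s : Set Cell} (hs : ∀ G ∈ s, ∃ k, F k = G) :
    IsCh C s := by
  constructor
  · intro G hG
    obtain ⟨k, rfl⟩ := hs G hG
    exact (hF.1 k).1
  · intro G hG G' hG'
    obtain ⟨k, rfl⟩ := hs G hG
    obtain ⟨l, rfl⟩ := hs G' hG'
    rcases lt_trichotomy k l with h | h | h
    · right; left
      exact ⟨by rw [(hF.1 k).2, (hF.1 l).2]; exact h, hF.2 _ _ h.le⟩
    · left; rw [h]
    · right; right
      exact ⟨by rw [(hF.1 k).2, (hF.1 l).2]; exact h, hF.2 _ _ h.le⟩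

theorem isBary_wtF (hF : IsFlag C F) {w : Fin 6 → ℝ} (hw : ∀ k, 0 < w k)
    (hs : ∑ k, w k = 1) : IsBary C (wtF F w) (comb F w) := by
  refine ⟨isCh_range hF fun G hG => (mem_support_wtF hF hw G).1 hG, ?_, ?_, ?_⟩
  · intro G
    by_cases hG : ∃ k, F k = G
    · obtain ⟨k, rfl⟩ := hG
      rw [wtF_apply hF]; exact (hw k).le
    · push Not at hG
      rw [wtF_apply_of_notMem w hG]
  · rw [wtF_sum F w _ (fun _ => rfl) (fun _ _ _ => rfl), hs]
  · rw [wtF_sum F w (fun F a => a • F.center) (fun _ => zero_smul _ _)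
      (fun _ _ _ => add_smul _ _ _)]
    rfl

theorem not_mem_C (h1 : A1Statement) (hC : IsClosed C) (hF : IsFlag C F) {x : E}
    (hx : x ∈ openSimplex F) : x ∉ C := by
  intro hxC
  have := (h1 C hC).2.2.2.1 (F 5) (hF.1 5).1 x (openSimplex_subset hF hx) x hxC
  rw [sub_self, norm_zero] at this
  linarith [len_pos (F 5)]

theorem lam_eq (h3 : A3Statement) (hC : IsClosed C) (hF : IsFlag C F) {x : E}
    (hx : x ∈ openSimplex F) : lam C x = wtF F (wt F x) := by
  obtain ⟨hw, hs, hcomb⟩ := wt_spec hx
  have hb : IsBary C (wtF F (wt F x)) x := by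
    have := isBary_wtF hF hw hs
    rwa [hcomb] at this
  have hex : ∃ w, IsBary C w x := ⟨_, hb⟩
  unfold lam
  rw [dif_pos hex]
  exact (h3 C hC).2.1 x _ _ hex.choose_spec hb

theorem sq_eq (h1 : A1Statement) (h3 : A3Statement) (hC : IsClosed C) (hF : IsFlag C F)
    (ε : Cell → ℝ) {x : E} (hx : x ∈ openSimplex F) : Helper27Sob.sq C ε x =
      (∑ k, ε (F k) * wt F x k)⁻¹ • ∑ k, (ε (F k) * wt F x k) • (F k).center := by
  unfold Helper27Sob.sq
  rw [if_neg (not_mem_C h1 hC hF hx), lam_eq h3 hC hF hx,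
    wtF_sum F _ (fun F a => ε F * a) (fun _ => mul_zero _) (fun _ _ _ => mul_add _ _ _),
    wtF_sum F _ (fun F a => (ε F * a) • F.center) (fun _ => by simp)
      (fun _ _ _ => by rw [mul_add, add_smul])]

theorem wt_lip (h2 : A2Statement) (hC : IsClosed C) (hF : IsFlag C F) {x y : E}
    (hx : x ∈ openSimplex F) (hy : y ∈ openSimplex F) (k : Fin 6) :
    |wt F x k - wt F y k| * (F 5).len ≤ 128 * ‖x - y‖ := by
  classical
  obtain ⟨hwx, hsx, hcx⟩ := wt_spec hx
  obtain ⟨hwy, hsy, hcy⟩ := wt_spec hy
  set v : Fin 6 → ℝ := fun k => wt F x k - wt F y k with hv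
  have hinj := IsFlag.injective hF
  have hsum : ∀ {N : Type} [AddCommMonoid N] (g : Cell → N),
      ∑ G ∈ Finset.univ.image F, g G = ∑ k, g (F k) := by
    intro N _ g
    rw [Finset.sum_image (fun a _ b _ h => hinj h)]
  have key := h2 C hC (Finset.univ.image F)
    (isCh_range hF fun G hG => by simpa using hG) (F 5)
    (Finset.mem_image_of_mem _ (Finset.mem_univ _))
    (fun G hG => by
      obtain ⟨l, _, rfl⟩ := Finset.mem_image.1 hG
      exact hF.2 l 5 (Fin.le_last l))
    (fun G => wtF F v G) (by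
      rw [hsum]
      simp only [wtF_apply hF]
      simp only [hv, Finset.sum_sub_distrib, hsx, hsy, sub_self]) (F k)
    (Finset.mem_image_of_mem _ (Finset.mem_univ _))
  rw [hsum] at key
  simp only [wtF_apply hF] at key
  have e : ∑ l, v l • (F l).center = x - y := by
    simp only [hv, sub_smul, Finset.sum_sub_distrib]
    have e1 : ∑ l, wt F x l • (F l).center = x := hcx
    have e2 : ∑ l, wt F y l • (F l).center = y := hcy
    rw [e1, e2]
  rwa [e] at key

theorem disjoint_openSimplex (h3 : A3Statement) (hC : IsClosed C) (hF : IsFlag C F)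
    {F' : Fin 6 → Cell} (hF' : IsFlag C F') (hne : F ≠ F') :
    Disjoint (openSimplex F) (openSimplex F') := by
  rw [Set.disjoint_left]
  intro x hx hx'
  apply hne
  have e1 := lam_eq h3 hC hF hx
  have e2 := lam_eq h3 hC hF' hx'
  have e : wtF F (wt F x) = wtF F' (wt F' x) := e1.symm.trans e2
  funext k
  have hk : F k ∈ (wtF F' (wt F' x)).support := by
    rw [← e]; exact (mem_support_wtF hF (wt_spec hx).1 _).2 ⟨k, rfl⟩
  obtain ⟨l, hl⟩ := (mem_support_wtF hF' (wt_spec hx').1 _).1 hk
  have d1 := (hF.1 k).2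
  have d2 := (hF'.1 l).2
  rw [hl, d1] at d2
  have hkl : k = l := Fin.ext d2
  subst hkl
  exact hl.symm

theorem finite_flags (h1 : A1Statement) (hC : IsClosed C) (G : Cell) :
    {F : Fin 6 → Cell | IsFlag C F ∧ ∃ k, F k = G}.Finite := by
  by_cases hG : IsC C G
  · have hdisj : Disjoint G.carrier C := by
      rw [Set.disjoint_left]
      intro x hx hxC
      have := (h1 C hC).2.2.2.1 G hG x hx x hxC
      rw [sub_self, norm_zero] at this
      linarith [len_pos G]
    have hfin := (h1 C hC).2.2.2.2.1 G.carrier (isCompact_carrier G) hdisj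
    refine (Set.Finite.pi' (fun _ : Fin 6 => hfin)).subset ?_
    rintro F ⟨hF, k, rfl⟩ l
    refine ⟨(hF.1 l).1, ?_⟩
    rcases le_total k l with h | h
    · exact ⟨(F k).center, hF.2 _ _ h (center_mem_carrier _), center_mem_carrier _⟩
    · exact ⟨(F l).center, center_mem_carrier _, hF.2 _ _ h (center_mem_carrier _)⟩
  · convert Set.finite_empty
    ext F
    simp only [mem_ofPred_eq, mem_empty_iff_false, iff_false, not_and]
    rintro hF ⟨k, rfl⟩
    exact hG (hF.1 k).1

end Flag

/-- Module A5. -/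
theorem a5 (h1 : A1Statement) (h2 : A2Statement) (h3 : A3Statement) : A5Statement := by
  intro C hC
  refine ⟨fun F hF => ⟨isOpen_openSimplex h1 hC hF, openSimplex_subset hF,
    fun x hx => wt_spec hx, fun x hx y hy k => wt_lip h2 hC hF hx hy k,
    volume_le h1 hC hF, fun ε _ x hx => sq_eq h1 h3 hC hF ε hx⟩,
    fun F F' hF hF' hne => disjoint_openSimplex h3 hC hF hF' hne,
    fun G => finite_flags h1 hC G⟩

end Pool.Agent.Helper23Sob
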